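import Mathlib
import Pool.Agent.TH76.BinPart.Basic

/-!
# The state vectors `j ↦ a(2^j m)` and a unipotent operator

The vectors `S m = (a(2^j m))_j` satisfy `S (m+1) = M (S m) + a((m+1)/2) • 1` for a linear
operator `M` that is lower triangular unipotent with nonzero subdiagonal.  Hence no `S m`
vanishes, and no two coordinates of `S m` agree for all `m`.
-/

namespace Pool.Agent.H251.BP

open Pool.Agent.TH76.BinPart Finset Polynomial

section Alg
variable {F : Type*} [Field F]

/-- state vector -/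
def S (F : Type*) [Field F] (m : ℕ) : ℕ → F := fun j => aa F (2^j*m)

/-- the tower read off from a vector -/
def Tw (i : ℕ) (y : ℕ → F) : ℕ → F := fun l => if l ≤ i then y (i - l) else 0

/-- value just before the end of the block -/
def Ls (i : ℕ) (y : ℕ → F) : F := X (Tw i y) 0 (2^i-1)

theorem Ls_add (i : ℕ) (y y' : ℕ → F) : Ls i (y + y') = Ls i y + Ls i y' := by
  unfold Ls
  rw [← X_add]
  congr 1
  funext j
  simp only [Tw, Pi.add_apply]
  split_ifs <;> simp

theorem Ls_smul (i : ℕ) (c : F) (y : ℕ → F) : Ls i (c • y) = c * Ls i y := by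
  unfold Ls
  rw [← X_smul]
  congr 1
  funext j
  simp only [Tw, Pi.smul_apply, smul_eq_mul]
  split_ifs <;> simp

/-- the operator -/
def Mop (F : Type*) [Field F] : Module.End F (ℕ → F) where
  toFun y := fun j => y 0 + ∑ i ∈ range j, Ls (i+1) y
  map_add' y y' := by
    funext j
    simp only [Ls_add, Pi.add_apply, sum_add_distrib]
    ring
  map_smul' c y := by
    funext j
    simp only [Ls_smul, Pi.smul_apply, smul_eq_mul, RingHom.id_apply, mul_add, mul_sum]

theorem Mop_apply (y : ℕ → F) (j : ℕ) : Mop F y j = y 0 + ∑ i ∈ range j, Ls (i+1) y := rfl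

theorem Mop_succ (y : ℕ → F) (j : ℕ) : Mop F y (j+1) = Mop F y j + Ls (j+1) y := by
  rw [Mop_apply, Mop_apply, sum_range_succ, add_assoc]

theorem Ls_S (j m : ℕ) : Ls j (S F m) = aa F (2^j*(m+1)-1) := by
  have h := X_block (fun _ => (1:F)) (Tw j (S F m)) 0 j m (by
    intro i hi
    rw [X_one]
    simp only [Tw, S, if_pos hi]) (2^j-1) 0 (Nat.zero_le _) (by
      have : 0 < 2^j := by positivity
      rw [Nat.sub_zero]; omega)
  rw [Ls, ← h, X_one, Nat.sub_zero]
  congr 1
  have : 0 < 2^j := by positivity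
  rw [Nat.mul_add, Nat.mul_one]
  omega

theorem S_succ (m : ℕ) : S F (m+1) = Mop F (S F m) + (aa F ((m+1)/2)) • S F 0 := by
  funext j
  simp only [Pi.add_apply, Pi.smul_apply, smul_eq_mul]
  have h0 : ∀ j, S F 0 j = 1 := by
    intro j; simp only [S, Nat.mul_zero, aa_zero]
  rw [h0, mul_one]
  induction j with
  | zero =>
    rw [Mop_apply]
    simp only [range_zero, sum_empty, add_zero, S, pow_zero, one_mul]
    exact aa_succ m
  | succ j ih =>
    rw [Mop_succ, Ls_S]
    have h1 : S F (m+1) (j+1) = aa F (2^(j+1)*(m+1)-1) + S F (m+1) j := by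
      simp only [S]
      have h2 := aa_even (F := F) (2^j*(m+1)) (Nat.mul_pos (by positivity) (by omega))
      rw [← mul_assoc, ← pow_succ'] at h2
      exact h2
    rw [h1, ih]; ring

theorem Ls_van (i : ℕ) (y : ℕ → F) (hy : ∀ j, j < i → y j = 0) : Ls i y = y i := by
  unfold Ls
  have h : Tw i y = fun j => if j = 0 then y i else 0 := by
    funext l
    simp only [Tw]
    by_cases hl : l = 0
    · subst hl; simp
    · rw [if_neg hl]
      split_ifs with h1
      · exact hy _ (by omega)
      · rfl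
  rw [h, X_delta]

theorem Ls_van_succ (n : ℕ) (y : ℕ → F) (hy : ∀ j, j < n → y j = 0) :
    Ls (n+1) y = y (n+1) + (2^(n+1)-1) * y n := by
  have key : ∀ v, X (Tw (n+1) y) 0 v = y (n+1) + (v:F) * y n := by
    intro v
    induction v with
    | zero => rw [X_zero]; simp [Tw]
    | succ v ih =>
      rw [X_succ, ih]
      have h1 : X (Tw (n+1) y) (0+1) ((v+1)/2) = y n := by
        have h2 := X_shift (Tw (n+1) y) 1 ((v+1)/2) 0
        rw [Nat.add_zero] at h2
        rw [Nat.zero_add, ← h2]
        have h3 : (fun j => Tw (n+1) y (1+j)) = fun j => if j = 0 then y n else 0 := by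
          funext l
          simp only [Tw]
          by_cases hl : l = 0
          · subst hl; simp
          · rw [if_neg hl]
            split_ifs with h4
            · exact hy _ (by omega)
            · rfl
        rw [h3, X_delta]
      rw [h1]
      push_cast
      ring
  unfold Ls
  rw [key]
  have : (1:ℕ) ≤ 2^(n+1) := Nat.one_le_two_pow
  rw [Nat.cast_sub this]
  push_cast
  ring

theorem Mop_van (n : ℕ) (y : ℕ → F) (hy : ∀ j, j < n → y j = 0) :
    ∀ j, j ≤ n → Mop F y j = y j := by
  intro j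
  induction j with
  | zero => intro _; rw [Mop_apply]; simp
  | succ j ih =>
    intro hj
    rw [Mop_succ, ih (by omega), hy j (by omega), zero_add]
    exact Ls_van _ _ (fun i hi => hy i (by omega))

/-- the nilpotent part -/
def Nop (F : Type*) [Field F] : Module.End F (ℕ → F) := Mop F - 1

theorem Nop_apply (y : ℕ → F) (j : ℕ) : Nop F y j = Mop F y j - y j := rfl

theorem Nop_pow (h2 : (2:F) ≠ 0) (n : ℕ) :
    (∀ j, j < n → ((Nop F)^n) (S F 0) j = 0) ∧ ((Nop F)^n) (S F 0) n ≠ 0 := by
  induction n with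
  | zero =>
    refine ⟨fun j hj => by omega, ?_⟩
    rw [pow_zero, Module.End.one_apply]
    simp only [S, Nat.mul_zero, aa_zero]
    exact one_ne_zero
  | succ n ih =>
    obtain ⟨ih1, ih2⟩ := ih
    rw [pow_succ', Module.End.mul_apply]
    refine ⟨?_, ?_⟩
    · intro j hj
      rw [Nop_apply, Mop_van n _ ih1 j (by omega), sub_self]
    · rw [Nop_apply, Mop_succ, Mop_van n _ ih1 n le_rfl, Ls_van_succ n _ ih1]
      have : ((Nop F)^n) (S F 0) n + (((Nop F)^n) (S F 0) (n+1) + (2^(n+1)-1) *
          ((Nop F)^n) (S F 0) n) - ((Nop F)^n) (S F 0) (n+1)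
          = 2^(n+1) * ((Nop F)^n) (S F 0) n := by ring
      rw [this]
      exact mul_ne_zero (pow_ne_zero _ h2) ih2

theorem S_poly (m : ℕ) : ∃ Q : F[X], Q.Monic ∧ Q.natDegree = m ∧
    S F m = (aeval (Nop F) Q) (S F 0) := by
  induction m with
  | zero => exact ⟨1, monic_one, natDegree_one, by simp⟩
  | succ m ih =>
    obtain ⟨Q, hQ, hdeg, hS⟩ := ih
    have hX : (Polynomial.X + 1 : F[X]).Monic := by
      have := monic_X_add_C (1:F)
      rwa [map_one] at this
    have hXd : (Polynomial.X + 1 : F[X]).natDegree = 1 := by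
      have := natDegree_X_add_C (1:F)
      rwa [map_one] at this
    have hmon : ((Polynomial.X+1) * Q).Monic := hX.mul hQ
    have hnd : ((Polynomial.X+1) * Q).natDegree = m + 1 := by
      rw [hX.natDegree_mul hQ, hXd, hdeg]; ring
    have hlt : (C (aa F ((m+1)/2))).degree < ((Polynomial.X+1) * Q).degree := by
      rw [degree_eq_natDegree hmon.ne_zero, hnd]
      refine lt_of_le_of_lt degree_C_le ?_
      exact_mod_cast Nat.succ_pos m
    refine ⟨(Polynomial.X+1) * Q + C (aa F ((m+1)/2)), hmon.add_of_left hlt, ?_, ?_⟩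
    · rw [natDegree_add_C, hnd]
    · rw [S_succ, hS, map_add, map_mul, map_add, aeval_X, map_one, aeval_C]
      have : Nop F + 1 = Mop F := by rw [Nop, sub_add_cancel]
      rw [this]
      rfl

theorem aeval_ne (h2 : (2:F) ≠ 0) (Q : F[X]) (hQ : Q ≠ 0) :
    ∃ j, (aeval (Nop F) Q) (S F 0) j ≠ 0 := by
  refine ⟨Q.natTrailingDegree, ?_⟩
  rw [aeval_eq_sum_range]
  have h1 : (∑ i ∈ range (Q.natDegree + 1), Q.coeff i • (Nop F)^i) (S F 0)
      Q.natTrailingDegree = ∑ i ∈ range (Q.natDegree + 1), Q.coeff i *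
      ((Nop F)^i) (S F 0) Q.natTrailingDegree := by
    rw [LinearMap.sum_apply, Finset.sum_apply]
    rfl
  rw [h1, Finset.sum_eq_single Q.natTrailingDegree]
  · refine mul_ne_zero ?_ (Nop_pow h2 _).2
    have := trailingCoeff_nonzero_iff_nonzero.mpr hQ
    exact this
  · intro i _ hi
    rcases lt_or_gt_of_ne hi with h | h
    · rw [coeff_eq_zero_of_lt_natTrailingDegree h, zero_mul]
    · rw [(Nop_pow h2 i).1 _ h, mul_zero]
  · intro h
    exfalso
    apply h
    rw [mem_range]
    have := natTrailingDegree_le_natDegree Q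
    omega

/-- no state vector vanishes -/
theorem exists_ne_zero (h2 : (2:F) ≠ 0) (m : ℕ) : ∃ j, aa F (2^j*m) ≠ 0 := by
  obtain ⟨Q, hQ, _, hS⟩ := S_poly (F := F) m
  obtain ⟨j, hj⟩ := aeval_ne h2 Q hQ.ne_zero
  rw [← hS] at hj
  exact ⟨j, hj⟩

/-- no two coordinates agree on all state vectors -/
theorem not_all_eq (h2 : (2:F) ≠ 0) (i i' : ℕ) (hi : i < i')
    (h : ∀ m, aa F (2^i*m) = aa F (2^i'*m)) : False := by
  let W : Submodule F (ℕ → F) := Submodule.span F (Set.range (S F))
  have hM : ∀ w ∈ W, Mop F w ∈ W := by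
    intro w hw
    induction hw using Submodule.span_induction with
    | mem x hx =>
      obtain ⟨m, rfl⟩ := hx
      have : Mop F (S F m) = S F (m+1) - (aa F ((m+1)/2)) • S F 0 := by
        rw [S_succ]; simp
      rw [this]
      exact W.sub_mem (Submodule.subset_span ⟨m+1, rfl⟩)
        (W.smul_mem _ (Submodule.subset_span ⟨0, rfl⟩))
    | zero => rw [map_zero]; exact W.zero_mem
    | add x y _ _ hx hy => rw [map_add]; exact W.add_mem hx hy
    | smul c x _ hx => rw [map_smul]; exact W.smul_mem _ hx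
  have hN : ∀ n, ((Nop F)^n) (S F 0) ∈ W := by
    intro n
    induction n with
    | zero => rw [pow_zero]; exact Submodule.subset_span ⟨0, rfl⟩
    | succ n ih =>
      rw [pow_succ', Module.End.mul_apply]
      exact W.sub_mem (hM _ ih) ih
  let f : (ℕ → F) →ₗ[F] F := (LinearMap.proj (R := F) (φ := fun _ : ℕ => F) i) -
    (LinearMap.proj (R := F) (φ := fun _ : ℕ => F) i')
  have hf : W ≤ LinearMap.ker f := by
    rw [Submodule.span_le]
    rintro _ ⟨m, rfl⟩
    show f (S F m) = 0
    simp only [f, LinearMap.sub_apply, LinearMap.proj_apply, S]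
    rw [h m, sub_self]
  have h3 := hf (hN i')
  rw [LinearMap.mem_ker] at h3
  simp only [f, LinearMap.sub_apply, LinearMap.proj_apply] at h3
  rw [(Nop_pow h2 i').1 i hi, zero_sub, neg_eq_zero] at h3
  exact (Nop_pow h2 i').2 h3

end Alg

end Pool.Agent.H251.BP
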