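import Mathlib
import Pool.Agent.TH76.BinPart.Lim

/-!
# The enveloping semigroup of the tower dynamics

`EE F` is the set of all simultaneous limits, along positions `m ≥ 1` at scale `K → ∞`, of the
maps sending a tower `r` to the tower `j ↦ X r j (2^(K-j) * m)`.  It is a closed subsemigroup of
the compact space of self-maps of `ℕ → F`, and it has a minimal left ideal.
-/

namespace Pool.Agent.H251.BP

open Pool.Agent.TH76.BinPart Filter

set_option linter.unusedSectionVars false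
set_option linter.style.haveILetI false

section Defs
variable {F : Type*} [Field F]

/-- simultaneous limits of the position maps -/
def EE (F : Type*) [Field F] : Set ((ℕ → F) → (ℕ → F)) :=
  {φ | ∀ (A : Finset (ℕ → F)) (K : ℕ), ∃ m, 1 ≤ m ∧
    ∀ r ∈ A, ∀ j, j ≤ K → X r j (2^(K-j)*m) = φ r j}

variable {φ ψ : (ℕ → F) → (ℕ → F)}

theorem EE_lim1 (h : φ ∈ EE F) (x : ℕ → F) : Lim1 x (φ x) := by
  rw [lim1_iff]; intro K
  obtain ⟨m, hm, h1⟩ := h {x} K
  exact ⟨m, hm, fun j hj => h1 x (Finset.mem_singleton_self x) j hj⟩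

theorem EE_add (h : φ ∈ EE F) (x y : ℕ → F) :
    φ (fun j => x j + y j) = fun j => φ x j + φ y j := by
  classical
  funext j
  obtain ⟨m, _, h1⟩ := h {x, y, fun j => x j + y j} j
  rw [← h1 (fun j => x j + y j) (by simp) j le_rfl, ← h1 x (by simp) j le_rfl,
    ← h1 y (by simp) j le_rfl, X_add]

theorem EE_smul (h : φ ∈ EE F) (c : F) (x : ℕ → F) :
    φ (fun j => c * x j) = fun j => c * φ x j := by
  classical
  funext j
  obtain ⟨m, _, h1⟩ := h {x, fun j => c * x j} j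
  rw [← h1 (fun j => c * x j) (by simp) j le_rfl, ← h1 x (by simp) j le_rfl, X_smul]

theorem EE_axpy (h : φ ∈ EE F) (c : F) (x y : ℕ → F) :
    φ (fun j => x j + c * y j) = fun j => φ x j + c * φ y j := by
  rw [EE_add h, EE_smul h]

theorem EE_delta (h : φ ∈ EE F) (c : F) :
    φ (fun j => if j = 0 then c else 0) = fun j => if j = 0 then c else 0 := by
  funext j
  obtain ⟨m, _, h1⟩ := h {fun j => if j = 0 then c else 0} j
  rw [← h1 _ (Finset.mem_singleton_self _) j le_rfl]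
  by_cases hj : j = 0
  · subst hj; rw [X_delta]; simp
  · rw [X_delta' _ _ _ (by omega)]; simp [hj]

theorem EE_eq_zero (h : φ ∈ EE F) (x : ℕ → F) (j : ℕ) (hx : ∀ v, 1 ≤ v → X x j v = 0) :
    φ x j = 0 := by
  obtain ⟨m, hm, h1⟩ := h {x} j
  rw [← h1 _ (Finset.mem_singleton_self _) j le_rfl]
  apply hx
  rw [Nat.sub_self, pow_zero, one_mul]; exact hm

theorem EE_val (h : φ ∈ EE F) (A : Finset (ℕ → F)) (L K : ℕ) (hK : 2*L ≤ K) :
    ∃ m, 1 ≤ m ∧ ∀ r ∈ A, ∀ j, j ≤ L → ∀ n, n ≤ L →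
      X (φ r) j n = X r j (2^(K-j)*m + n) := by
  obtain ⟨m, hm, h1⟩ := h A K
  refine ⟨m, hm, ?_⟩
  intro r hr j hj n hn
  have hb := X_block r (fun i' => φ r (j + i')) j (K-j) m (by
    intro i' hi'
    rw [show K - j - i' = K - (j+i') by omega]
    exact h1 r hr (j+i') (by omega)) n 0 (Nat.zero_le _) (by
      rw [Nat.sub_zero]
      calc n ≤ L := hn
        _ < 2^L := Nat.lt_two_pow_self
        _ ≤ 2^(K-j) := Nat.pow_le_pow_right (by norm_num) (by omega))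
  rw [Nat.sub_zero, Nat.add_zero] at hb
  rw [hb, X_shift, Nat.add_zero]

theorem EE_comp (h : φ ∈ EE F) (h' : ψ ∈ EE F) : φ ∘ ψ ∈ EE F := by
  classical
  intro A K
  obtain ⟨m2, hm2, h2'⟩ := h (A.image ψ) K
  obtain ⟨m1, hm1, h1'⟩ := EE_val h' A (K + 2^K*m2) (2*(K+2^K*m2)) le_rfl
  set K' := 2*(K+2^K*m2) with hK'
  refine ⟨2^(K'-K)*m1 + m2, by omega, ?_⟩
  intro r hr j hj
  have hle : 2^(K-j)*m2 ≤ K + 2^K*m2 := by
    have : 2^(K-j)*m2 ≤ 2^K*m2 :=
      Nat.mul_le_mul_right _ (Nat.pow_le_pow_right (by norm_num) (by omega))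
    omega
  have := h1' r hr j (by omega) (2^(K-j)*m2) hle
  rw [h2' (ψ r) (Finset.mem_image_of_mem ψ hr) j hj] at this
  rw [Function.comp_apply, this]
  congr 1
  have hKK : K ≤ K' := by omega
  have : 2^(K'-j) = 2^(K-j)*2^(K'-K) := by
    rw [← pow_add]; congr 1; omega
  rw [this]; ring

end Defs

section Compact
variable {F : Type*} [Field F] [Finite F]

theorem ultra_const {ι : Type*} (U : Ultrafilter ι) (f : ι → F) :
    ∃ c, ∀ᶠ i in (U : Filter ι), f i = c := by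
  have h : (⋃ c ∈ (Set.univ : Set F), {i | f i = c}) ∈ U := by
    have : (⋃ c ∈ (Set.univ : Set F), {i | f i = c}) = Set.univ := by
      ext i; simp
    rw [this]; exact Filter.univ_mem
  obtain ⟨c, _, hc⟩ := (Ultrafilter.finite_biUnion_mem_iff Set.finite_univ).mp h
  exact ⟨c, hc⟩

/-- two simultaneous limits along two sequences of positions with the same scales -/
theorem EE_limit2 (K m m' : ℕ → ℕ) (hK : ∀ i, i ≤ K i) (hm : ∀ i, 1 ≤ m i)
    (hm' : ∀ i, 1 ≤ m' i) :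
    ∃ φ ∈ EE F, ∃ φ' ∈ EE F, ∀ (A : Finset (ℕ → F)) (L : ℕ), ∃ i, L ≤ i ∧
      ∀ r ∈ A, ∀ j, j ≤ L → X r j (2^(K i - j) * m i) = φ r j ∧
        X r j (2^(K i - j) * m' i) = φ' r j := by
  classical
  let U : Ultrafilter ℕ := hyperfilter ℕ
  choose φ hφ using fun (r : ℕ → F) => fun (j:ℕ) =>
    ultra_const U (fun i => X r j (2^(K i - j) * m i))
  choose φ' hφ' using fun (r : ℕ → F) => fun (j:ℕ) =>
    ultra_const U (fun i => X r j (2^(K i - j) * m' i))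
  have key : ∀ (A : Finset (ℕ → F)) (L : ℕ), ∃ i, L ≤ i ∧
      ∀ r ∈ A, ∀ j, j ≤ L → X r j (2^(K i - j) * m i) = φ r j ∧
        X r j (2^(K i - j) * m' i) = φ' r j := by
    intro A L
    have h1 : ∀ᶠ i in (U : Filter ℕ), L ≤ i :=
      (Nat.hyperfilter_le_atTop) (Filter.eventually_ge_atTop L)
    have h2 : ∀ᶠ i in (U : Filter ℕ), ∀ r ∈ A, ∀ j ∈ Finset.range (L+1),
        X r j (2^(K i - j) * m i) = φ r j ∧ X r j (2^(K i - j) * m' i) = φ' r j := by
      rw [Filter.eventually_all_finset]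
      intro r _
      rw [Filter.eventually_all_finset]
      intro j _
      exact (hφ r j).and (hφ' r j)
    obtain ⟨i, hi, hi'⟩ := (h1.and h2).exists
    exact ⟨i, hi, fun r hr j hj => hi' r hr j (Finset.mem_range.mpr (by omega))⟩
  have hrew : ∀ i K0 j M : ℕ, K0 ≤ i → j ≤ K0 → 2^(K0 - j) * (2^(K i - K0) * M) = 2^(K i - j) * M := by
    intro i K0 j M hi hj
    have := hK i
    rw [← mul_assoc, ← pow_add]
    congr 2; omega
  refine ⟨φ, ?_, φ', ?_, key⟩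
  · intro A K0
    obtain ⟨i, hi, h⟩ := key A K0
    refine ⟨2^(K i - K0) * m i, Nat.mul_pos (by positivity) (hm i), ?_⟩
    intro r hr j hj
    rw [hrew i K0 j _ hi hj]
    exact (h r hr j hj).1
  · intro A K0
    obtain ⟨i, hi, h⟩ := key A K0
    refine ⟨2^(K i - K0) * m' i, Nat.mul_pos (by positivity) (hm' i), ?_⟩
    intro r hr j hj
    rw [hrew i K0 j _ hi hj]
    exact (h r hr j hj).2

theorem EE_limit (K m : ℕ → ℕ) (hK : ∀ i, i ≤ K i) (hm : ∀ i, 1 ≤ m i) :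
    ∃ φ ∈ EE F, ∀ (A : Finset (ℕ → F)) (L : ℕ), ∃ i, L ≤ i ∧
      ∀ r ∈ A, ∀ j, j ≤ L → X r j (2^(K i - j) * m i) = φ r j := by
  obtain ⟨φ, hφ, φ', _, h⟩ := EE_limit2 (F := F) K m m hK hm hm
  refine ⟨φ, hφ, ?_⟩
  intro A L
  obtain ⟨i, hi, h1⟩ := h A L
  exact ⟨i, hi, fun r hr j hj => (h1 r hr j hj).1⟩

theorem EE_nonempty : (EE F).Nonempty := by
  obtain ⟨φ, hφ, _⟩ := EE_limit (F := F) (fun i => i) (fun _ => 1) (fun _ => le_rfl)
    (fun _ => le_rfl)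
  exact ⟨φ, hφ⟩

theorem lim1_iff_EE {x y : ℕ → F} : Lim1 x y ↔ ∃ φ ∈ EE F, φ x = y := by
  constructor
  · intro h
    rw [lim1_iff] at h
    choose m hm h1 using h
    obtain ⟨φ, hφ, h2⟩ := EE_limit (F := F) (fun i => i) m (fun _ => le_rfl) hm
    refine ⟨φ, hφ, ?_⟩
    funext j
    obtain ⟨i, hi, h3⟩ := h2 {x} j
    rw [← h3 x (Finset.mem_singleton_self x) j le_rfl]
    exact h1 i j hi
  · rintro ⟨φ, hφ, rfl⟩
    exact EE_lim1 hφ x

theorem lim1_trans {x y z : ℕ → F} (h1 : Lim1 x y) (h2 : Lim1 y z) : Lim1 x z :=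
  Lim.trans h1 h2

theorem lim1_shift {x y : ℕ → F} (h : Lim1 x y) (s : ℕ) :
    Lim1 (fun j => x (s+j)) (fun j => y (s+j)) := Lim.shift h s

/-- limits lift along the shift -/
theorem lim1_lift {x y : ℕ → F} (s : ℕ) (h : Lim1 (fun j => x (s+j)) y) :
    ∃ z, Lim1 x z ∧ (fun j => z (s+j)) = y := by
  rw [lim1_iff] at h
  choose m hm h1 using h
  obtain ⟨φ, hφ, h2⟩ := EE_limit (F := F) (fun i => s + i) m (fun _ => by omega) hm
  refine ⟨φ x, EE_lim1 hφ x, ?_⟩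
  funext j
  obtain ⟨i, hi, h3⟩ := h2 {x} (s+j)
  rw [← h3 x (Finset.mem_singleton_self x) (s+j) le_rfl]
  have h4 := h1 i j (by omega)
  rw [← h4, X_shift]
  congr 2
  congr 1
  omega

/-- minimal points -/
def Min1 (x : ℕ → F) : Prop := ∀ y, Lim1 x y → Lim1 y x

theorem Min1.lim {x y : ℕ → F} (h : Min1 x) (hy : Lim1 x y) : Min1 y := by
  intro z hz
  exact lim1_trans (h z (lim1_trans hy hz)) hy

theorem Min1.shift {x : ℕ → F} (h : Min1 x) (s : ℕ) : Min1 (fun j => x (s+j)) := by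
  intro y hy
  obtain ⟨z, hz, rfl⟩ := lim1_lift s hy
  exact lim1_shift (h z hz) s

theorem exists_min1 (x : ℕ → F) : ∃ y, Lim1 x y ∧ Min1 y := by
  obtain ⟨w, hw, hmin⟩ := exists_min 1 (fun _ => x)
  refine ⟨w 0, ?_, ?_⟩
  · refine Lim.congr (fun _ _ _ => rfl) ?_ hw
    intro i hi j
    have : i = 0 := by omega
    rw [this]
  · intro z hz
    have h1 : Lim 1 w (fun _ => z) := by
      refine Lim.congr ?_ (fun _ _ _ => rfl) hz
      intro i hi j
      have : i = 0 := by omega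
      rw [this]
    refine Lim.congr (fun _ _ _ => rfl) ?_ (hmin _ h1)
    intro i hi j
    have : i = 0 := by omega
    rw [this]

end Compact

section Topo
variable {F : Type*} [Field F] [Finite F] [TopologicalSpace F] [DiscreteTopology F]

theorem EE_closed : IsClosed (EE F) := by
  classical
  rw [← isOpen_compl_iff, isOpen_iff_forall_mem_open]
  intro φ hφ
  have : ∃ (A : Finset (ℕ → F)) (K : ℕ), ∀ m, 1 ≤ m →
      ¬ ∀ r ∈ A, ∀ j, j ≤ K → X r j (2^(K-j)*m) = φ r j := by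
    by_contra hcon
    push Not at hcon
    exact hφ hcon
  obtain ⟨A, K, hAK⟩ := this
  refine ⟨⋂ r ∈ A, ⋂ j ∈ Finset.range (K+1), {φ' : (ℕ → F) → (ℕ → F) | φ' r j = φ r j}, ?_, ?_, ?_⟩
  · intro φ' hφ' hmem
    simp only [Set.mem_iInter, Finset.mem_range, Set.mem_ofPred_eq] at hφ'
    obtain ⟨m, hm, h1⟩ := hmem A K
    apply hAK m hm
    intro r hr j hj
    rw [h1 r hr j hj]
    exact hφ' r hr j (by omega)
  · apply isOpen_biInter_finset
    intro r _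
    apply isOpen_biInter_finset
    intro j _
    have hc : Continuous (fun φ' : (ℕ → F) → (ℕ → F) => φ' r j) := by fun_prop
    exact (isOpen_discrete {φ r j}).preimage hc
  · simp

/-- closed left ideals of the enveloping semigroup -/
def LId (I : Set ((ℕ → F) → (ℕ → F))) : Prop :=
  IsClosed I ∧ I.Nonempty ∧ I ⊆ EE F ∧ ∀ φ ∈ EE F, ∀ ψ ∈ I, φ ∘ ψ ∈ I

theorem exists_minideal : ∃ I : Set ((ℕ → F) → (ℕ → F)), LId I ∧ ∀ J, LId J → J ⊆ I → J = I := by
  have hz := zorn_superset_nonempty {I : Set ((ℕ → F) → (ℕ → F)) | LId I} (by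
    intro c hc hchain hcne
    refine ⟨⋂₀ c, ⟨isClosed_sInter (fun A hA => (hc hA).1), ?_, ?_, ?_⟩,
      fun A hA => Set.sInter_subset_of_mem hA⟩
    · haveI : Nonempty c := hcne.to_subtype
      apply IsCompact.nonempty_sInter_of_directed_nonempty_isCompact_isClosed
      · intro A hA B hB
        rcases hchain.total hA hB with h | h
        · exact ⟨A, hA, subset_rfl, h⟩
        · exact ⟨B, hB, h, subset_rfl⟩
      · exact fun A hA => (hc hA).2.1
      · exact fun A hA => (hc hA).1.isCompact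
      · exact fun A hA => (hc hA).1
    · obtain ⟨A, hA⟩ := hcne
      exact (Set.sInter_subset_of_mem hA).trans (hc hA).2.2.1
    · intro φ hφ ψ hψ A hA
      exact (hc hA).2.2.2 φ hφ ψ (hψ A hA)) (EE F) ⟨EE_closed, EE_nonempty, subset_rfl,
        fun φ hφ ψ hψ => EE_comp hφ hψ⟩
  obtain ⟨I, _, hmin⟩ := hz
  exact ⟨I, hmin.prop, fun J hJ hJI => subset_antisymm hJI (hmin.le_of_le hJ hJI)⟩

theorem comp_right_continuous (ψ : (ℕ → F) → (ℕ → F)) :
    Continuous (fun φ : (ℕ → F) → (ℕ → F) => φ ∘ ψ) := by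
  apply continuous_pi
  intro x
  exact continuous_apply (ψ x)

/-- a type synonym carrying the composition semigroup structure -/
def EndT (F : Type*) := (ℕ → F) → (ℕ → F)

instance : TopologicalSpace (EndT F) :=
  inferInstanceAs (TopologicalSpace ((ℕ → F) → (ℕ → F)))

instance : T2Space (EndT F) := inferInstanceAs (T2Space ((ℕ → F) → (ℕ → F)))

instance : Semigroup (EndT F) where
  mul f g := fun x => f (g x)
  mul_assoc _ _ _ := rfl

theorem exists_idem (S : Set ((ℕ → F) → (ℕ → F))) (hc : IsClosed S) (hne : S.Nonempty)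
    (hmul : ∀ φ ∈ S, ∀ ψ ∈ S, φ ∘ ψ ∈ S) : ∃ u ∈ S, u ∘ u = u := by
  have hcont : ∀ r : EndT F, Continuous (fun x : EndT F => x * r) :=
    fun r => comp_right_continuous (F := F) r
  have hcomp : IsCompact (X := EndT F) S := hc.isCompact
  obtain ⟨m, hm, h⟩ := exists_idempotent_in_compact_subsemigroup hcont S hne hcomp hmul
  exact ⟨m, hm, h⟩

theorem minideal_gen {I : Set ((ℕ → F) → (ℕ → F))} (hI : LId I)
    (hmin : ∀ J, LId J → J ⊆ I → J = I) {J : Set ((ℕ → F) → (ℕ → F))} (hJc : IsClosed J)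
    (hJne : J.Nonempty) (hJE : J ⊆ EE F) (hJ : ∀ φ ∈ EE F, ∀ ψ ∈ J, φ ∘ ψ ∈ J)
    {C : (ℕ → F) → (ℕ → F)} (hC : C ∈ I) {D : (ℕ → F) → (ℕ → F)} (hD : D ∈ I) :
    ∃ θ ∈ J, θ ∘ C = D := by
  have h1 : LId ((fun φ : (ℕ → F) → (ℕ → F) => φ ∘ C) '' J) := by
    refine ⟨?_, hJne.image _, ?_, ?_⟩
    · exact (hJc.isCompact.image (comp_right_continuous C)).isClosed
    · rintro _ ⟨φ, hφ, rfl⟩
      exact EE_comp (hJE hφ) (hI.2.2.1 hC)
    · rintro φ hφ _ ⟨ψ, hψ, rfl⟩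
      exact ⟨φ ∘ ψ, hJ φ hφ ψ hψ, rfl⟩
  have h2 := hmin _ h1 (by
    rintro _ ⟨φ, hφ, rfl⟩
    exact hI.2.2.2 φ (hJE hφ) C hC)
  rw [← h2] at hD
  exact hD

theorem minideal_idem {I : Set ((ℕ → F) → (ℕ → F))} (hI : LId I)
    (hmin : ∀ J, LId J → J ⊆ I → J = I) {C : (ℕ → F) → (ℕ → F)} (hC : C ∈ I) :
    ∃ u ∈ I, u ∘ u = u ∧ u ∘ C = C := by
  have hne : (I ∩ {θ : (ℕ → F) → (ℕ → F) | θ ∘ C = C}).Nonempty := by
    obtain ⟨θ, hθ, h⟩ := minideal_gen hI hmin hI.1 hI.2.1 hI.2.2.1 hI.2.2.2 hC hC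
    exact ⟨θ, hθ, h⟩
  have hcl : IsClosed (I ∩ {θ : (ℕ → F) → (ℕ → F) | θ ∘ C = C}) :=
    hI.1.inter (isClosed_singleton.preimage (comp_right_continuous C))
  obtain ⟨u, hu, hidem⟩ := exists_idem _ hcl hne (by
    rintro φ ⟨hφ, hφ'⟩ ψ ⟨hψ, hψ'⟩
    refine ⟨hI.2.2.2 φ (hI.2.2.1 hφ) ψ hψ, ?_⟩
    show (φ ∘ ψ) ∘ C = C
    rw [Function.comp_assoc, hψ', hφ'])
  exact ⟨u, hu.1, hidem, hu.2⟩

theorem minideal_min {I : Set ((ℕ → F) → (ℕ → F))} (hI : LId I)
    (hmin : ∀ J, LId J → J ⊆ I → J = I) {u : (ℕ → F) → (ℕ → F)} (hu : u ∈ I) (x : ℕ → F) :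
    Min1 (u x) := by
  intro y hy
  obtain ⟨φ, hφ, rfl⟩ := lim1_iff_EE.mp hy
  obtain ⟨θ, hθ, h⟩ := minideal_gen hI hmin EE_closed EE_nonempty subset_rfl
    (fun φ hφ ψ hψ => EE_comp hφ hψ) (hI.2.2.2 φ hφ u hu) hu
  rw [lim1_iff_EE]
  exact ⟨θ, hθ, congrFun h x⟩

end Topo

end Pool.Agent.H251.BP
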