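import Mathlib
import Pool.Agent.H251.BP.Ellis
import Pool.Agent.H251.BP.Alg
import Pool.Agent.TH76.BinPart.Descent

/-!
# The zero tower is a limit of the constant tower
-/

namespace Pool.Agent.H251.BP

open Pool.Agent.TH76.BinPart

set_option linter.unusedSectionVars false
set_option linter.style.haveILetI false

section Full
variable {F : Type*} [Field F] [Finite F]

/-- any two limits of `x` are mutually reachable -/
def Hom (x : ℕ → F) : Prop := ∀ y z, Lim1 x y → Lim1 x z → Lim1 y z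

theorem Min1.hom {x : ℕ → F} (h : Min1 x) : Hom x :=
  fun y _ hy hz => lim1_trans (h y hy) hz

/-- the tower supported at level zero -/
def dl (c : F) : ℕ → F := fun j => if j = 0 then c else 0

theorem full_one {x y : ℕ → F} (hx : Hom x) (hy : Lim1 x y) {d : F}
    (hy' : Lim1 x (fun j => y j + dl d j)) {z : ℕ → F} (hz : Lim1 x z) :
    Lim1 x (fun j => z j + dl d j) := by
  obtain ⟨φ, hφ, rfl⟩ := lim1_iff_EE.mp (hx y z hy hz)
  have h1 : φ (fun j => y j + dl d j) = fun j => φ y j + dl d j := by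
    rw [EE_add hφ]
    have := EE_delta hφ d
    funext j
    exact congrArg (φ y j + ·) (congrFun this j)
  rw [← h1]
  exact lim1_trans hy' (EE_lim1 hφ _)

theorem full_all (hsurj : ∀ x : F, ∃ n : ℕ, (n:F) = x) {x y : ℕ → F} (hx : Hom x)
    (hy : Lim1 x y) {d : F} (hd : d ≠ 0)
    (hy' : Lim1 x (fun j => y j + dl d j)) {z : ℕ → F} (hz : Lim1 x z) (c : F) :
    Lim1 x (fun j => z j + dl c j) := by
  have key : ∀ n : ℕ, Lim1 x (fun j => z j + dl ((n:F) * d) j) := by
    intro n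
    induction n with
    | zero =>
      have : (fun j => z j + dl (((0:ℕ):F) * d) j) = z := by
        funext j
        simp only [dl, Nat.cast_zero, zero_mul]
        split_ifs <;> simp
      rw [this]; exact hz
    | succ n ih =>
      have h1 := full_one hx hy hy' ih
      have : (fun j => z j + dl (((n+1:ℕ):F) * d) j) =
          fun j => (z j + dl ((n:F) * d) j) + dl d j := by
        funext j
        simp only [dl, Nat.cast_add, Nat.cast_one]
        split_ifs <;> ring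
      rw [this]; exact h1
  obtain ⟨n, hn⟩ := hsurj (c / d)
  have h1 := key n
  rw [hn, div_mul_cancel₀ c hd] at h1
  exact h1

theorem zero_of_full (x : ℕ → F) (h : ∀ s z, Lim1 (fun j => x (s+j)) z → ∀ c,
    Lim1 (fun j => x (s+j)) (fun j => z j + dl c j)) : Lim1 x (fun _ => 0) := by
  have key : ∀ n s, ∃ z, Lim1 (fun j => x (s+j)) z ∧ ∀ i, i < n → z i = 0 := by
    intro n
    induction n with
    | zero =>
      intro s
      obtain ⟨φ, hφ⟩ := EE_nonempty (F := F)
      exact ⟨_, EE_lim1 hφ _, fun i hi => by omega⟩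
    | succ n ih =>
      intro s
      obtain ⟨z, hz, hz0⟩ := ih (s+1)
      have h1 : (fun j => x (s+1+j)) = fun j => (fun j => x (s+j)) (1+j) := by
        funext j; simp only; congr 1; omega
      rw [h1] at hz
      obtain ⟨z', hz', h2⟩ := lim1_lift (x := fun j => x (s+j)) 1 hz
      refine ⟨_, h s z' hz' (- z' 0), ?_⟩
      intro i hi
      rcases Nat.eq_zero_or_pos i with rfl | hpos
      · simp [dl]
      · obtain ⟨i', rfl⟩ : ∃ i', i = 1 + i' := ⟨i-1, by omega⟩
        have h3 : z' (1+i') = z i' := congrFun h2 i'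
        have h4 : dl (-z' 0) (1+i') = 0 := by simp only [dl]; rw [if_neg (by omega)]
        rw [h4, h3, hz0 i' (by omega), add_zero]
  rw [lim1_iff]
  intro K
  obtain ⟨z, hz, hz0⟩ := key (K+1) 0
  rw [lim1_iff] at hz
  obtain ⟨m, hm, h1⟩ := hz K
  refine ⟨m, hm, ?_⟩
  intro j hj
  rw [← hz0 j (by omega), ← h1 j hj]
  congr 1
  funext j; simp

end Full

section Exit
variable {F : Type*} [Field F] [Finite F]

/-- every zero state is left again -/
def Exit (k : ℕ → F) : Prop :=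
  ∀ K m, 1 ≤ m → (∀ j, j ≤ K → X k j (2^(K-j)*m) = 0) → ∃ v, m < v ∧ X k K v ≠ 0

theorem exit_psi {k : ℕ → F} (hk : Lim1 k (fun _ => 0)) (hexit : Exit k) :
    ∃ ψ ∈ EE F, ∃ c : F, c ≠ 0 ∧ ψ k = fun _ => c := by
  classical
  have h1 : ∀ K, ∃ v, 1 ≤ v ∧ ∃ c : F, c ≠ 0 ∧ ∀ j, j ≤ K → X k j (2^(K-j)*v) = c := by
    intro K
    rw [lim1_iff] at hk
    obtain ⟨m, hm, h0⟩ := hk K
    have hex := hexit K m hm h0
    have hv := Nat.find_spec hex
    refine ⟨Nat.find hex, by have := hv.1; omega, X k K (Nat.find hex), hv.2, ?_⟩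
    apply exit_lemma k K m h0 _ hv.1
    intro u' h3 h4
    rcases Nat.lt_or_ge m u' with h | h
    · have := Nat.find_min hex h4
      push Not at this
      exact this h
    · have : u' = m := by omega
      rw [this]
      have := h0 K le_rfl
      simpa using this
  choose v hv c hc h2 using h1
  obtain ⟨ψ, hψ, h3⟩ := EE_limit (F := F) (fun i => i) v (fun _ => le_rfl) hv
  refine ⟨ψ, hψ, ψ k 0, ?_, ?_⟩
  · obtain ⟨i, _, h4⟩ := h3 {k} 0
    rw [← h4 k (Finset.mem_singleton_self k) 0 le_rfl, h2 i 0 (Nat.zero_le _)]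
    exact hc i
  · funext j
    obtain ⟨i, hi, h4⟩ := h3 {k} j
    rw [← h4 k (Finset.mem_singleton_self k) 0 (Nat.zero_le _), h2 i 0 (Nat.zero_le _),
      ← h4 k (Finset.mem_singleton_self k) j le_rfl, h2 i j hi]

theorem eventually_zero {k : ℕ → F} {K m : ℕ} (h : ∀ v, m < v → X k K v = 0) :
    ∃ J, ∀ j, J ≤ j → ∀ v, 1 ≤ v → X k j v = 0 := by
  have key : ∀ t v, m / 2^t < v → X k (K+t) v = 0 := by
    intro t
    induction t with
    | zero => intro v hv; exact h v (by simpa using hv)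
    | succ t ih =>
      intro v hv
      rw [pow_succ, ← Nat.div_div_eq_div_mul] at hv
      have h1 := X_odd k (K+t) v
      rw [ih (2*v+1) (by omega), ih (2*v) (by omega), zero_add] at h1
      rw [← Nat.add_assoc]
      exact h1.symm
  refine ⟨K+m, ?_⟩
  intro j hj v hv
  obtain ⟨t, rfl⟩ : ∃ t, j = K + t := ⟨j-K, by omega⟩
  apply key t v
  have h1 : m < 2^t := lt_of_lt_of_le Nat.lt_two_pow_self
    (Nat.pow_le_pow_right (by norm_num) (by omega : m ≤ t))
  rw [Nat.div_eq_of_lt h1]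
  exact hv

/-- the kernel tower of an idempotent -/
def kk (u : (ℕ → F) → (ℕ → F)) : ℕ → F := fun j => (fun _ : ℕ => (1:F)) j + (-1) * u (fun _ => 1) j

theorem kk_zero {u : (ℕ → F) → (ℕ → F)} (hu : u ∈ EE F) (hid : u ∘ u = u) :
    u (kk u) = fun _ => 0 := by
  have h1 := EE_axpy hu (-1) (fun _ => (1:F)) (u (fun _ => 1))
  have h2 : u (u (fun _ => 1)) = u (fun _ => 1) := congrFun hid _
  show u (fun j => (fun _ : ℕ => (1:F)) j + (-1) * u (fun _ => 1) j) = _
  rw [h1, h2]
  funext j; ring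

end Exit

section Main
variable {F : Type*} [Field F] [Finite F]

/-- a large family of separated elements -/
def GG (n : ℕ) (u : (ℕ → F) → (ℕ → F)) : Prop :=
  ∃ θ ∈ EE F, ∃ χ : ℕ → ((ℕ → F) → (ℕ → F)), (∀ i, i ≤ n → χ i ∈ EE F ∧ χ i ∘ u = θ ∘ u) ∧
    ∀ i j, i < j → j ≤ n → ∃ d : F, d ≠ 0 ∧ ∃ φ ∈ EE F,
      ∀ t, χ i (fun _ => 1) t - χ j (fun _ => 1) t = d * φ (fun _ => 1) t

theorem GG_step {n : ℕ} {u u' C ψ : (ℕ → F) → (ℕ → F)} {c : F} (hc : c ≠ 0) (hu : u ∈ EE F)
    (hid : u ∘ u = u) (hψ : ψ ∈ EE F) (hψc : ψ (kk u) = fun _ => c) (hC : C = ψ ∘ u)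
    (hu'C : u' ∘ C = C) (h : GG n u') : GG (n+1) u := by
  obtain ⟨θ', hθ', χ', h1, h2⟩ := h
  have hψ1 : ψ (fun _ => (1:F)) = fun j => C (fun _ => 1) j + c * (fun _ : ℕ => (1:F)) j := by
    have e1 : (fun _ : ℕ => (1:F)) = fun j => u (fun _ => 1) j + kk u j := by
      funext j; simp only [kk]; ring
    rw [e1, EE_add hψ, hψc, ← e1, hC]
    funext j; simp
  have hχC : ∀ i, i ≤ n → χ' i ∘ C = θ' ∘ C := by
    intro i hi
    rw [← hu'C, ← Function.comp_assoc, (h1 i hi).2, Function.comp_assoc]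
  have hχ1 : ∀ i, i ≤ n → ∀ t, χ' i (ψ (fun _ => 1)) t =
      θ' (C (fun _ => 1)) t + c * χ' i (fun _ => 1) t := by
    intro i hi t
    rw [hψ1, EE_axpy (h1 i hi).1]
    have := congrFun (hχC i hi) (fun _ => 1)
    simp only [Function.comp_apply] at this
    rw [this]
  refine ⟨θ' ∘ ψ, EE_comp hθ' hψ, fun i => if i ≤ n then χ' i ∘ ψ else θ' ∘ C, ?_, ?_⟩
  · intro i hi
    by_cases hin : i ≤ n
    · simp only [hin, if_true]
      refine ⟨EE_comp (h1 i hin).1 hψ, ?_⟩
      rw [Function.comp_assoc, Function.comp_assoc, ← hC, hχC i hin]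
    · simp only [hin, if_false]
      refine ⟨EE_comp hθ' (by rw [hC]; exact EE_comp hψ hu), ?_⟩
      rw [hC, Function.comp_assoc, Function.comp_assoc, hid, Function.comp_assoc]
  · intro i j hij hj
    by_cases hjn : j ≤ n
    · have hin : i ≤ n := by omega
      simp only [hin, hjn, if_true]
      obtain ⟨d, hd, φ, hφ, h3⟩ := h2 i j hij hjn
      refine ⟨c * d, mul_ne_zero hc hd, φ, hφ, ?_⟩
      intro t
      rw [Function.comp_apply, Function.comp_apply, hχ1 i hin, hχ1 j hjn]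
      have := h3 t
      linear_combination c * this
    · have hin : i ≤ n := by omega
      simp only [hin, hjn, if_true, if_false]
      refine ⟨c, hc, χ' i, (h1 i hin).1, ?_⟩
      intro t
      rw [Function.comp_apply, Function.comp_apply, hχ1 i hin]
      ring

theorem GG_all [TopologicalSpace F] [DiscreteTopology F] {I : Set ((ℕ → F) → (ℕ → F))}
    (hI : LId I) (hmin : ∀ J, LId J → J ⊆ I → J = I)
    (hex : ∀ u ∈ I, u ∘ u = u → Exit (kk u)) :
    ∀ n, ∀ u ∈ I, u ∘ u = u → GG n u := by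
  intro n
  induction n with
  | zero =>
    intro u hu _
    refine ⟨u, hI.2.2.1 hu, fun _ => u, fun i _ => ⟨hI.2.2.1 hu, rfl⟩, ?_⟩
    intro i j hij hj
    omega
  | succ n ih =>
    intro u hu hid
    have huE := hI.2.2.1 hu
    have h0 : Lim1 (kk u) (fun _ => 0) := by
      rw [← kk_zero huE hid]; exact EE_lim1 huE _
    obtain ⟨ψ, hψ, c, hc, hψc⟩ := exit_psi h0 (hex u hu hid)
    have hC : ψ ∘ u ∈ I := hI.2.2.2 ψ hψ u hu
    obtain ⟨u', hu', hid', hu'C⟩ := minideal_idem hI hmin hC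
    exact GG_step hc huE hid hψ hψc rfl hu'C (ih u' hu' hid')

theorem no_GG {K0 : ℕ} (hK0 : ∀ φ ∈ EE F, ∃ j, j ≤ K0 ∧ φ (fun _ => 1) j ≠ 0)
    {u : (ℕ → F) → (ℕ → F)} (h : ∀ n, GG n u) : False := by
  classical
  haveI := Fintype.ofFinite F
  obtain ⟨θ, _, χ, _, h2⟩ := h (Fintype.card (Fin (K0+1) → F))
  obtain ⟨i, hi, j, hj, hne, heq⟩ := Finset.exists_ne_map_eq_of_card_lt_of_maps_to
    (s := Finset.range (Fintype.card (Fin (K0+1) → F) + 1)) (t := (Finset.univ : Finset (Fin (K0+1) → F)))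
    (by rw [Finset.card_range, Finset.card_univ]; omega)
    (f := fun i (l : Fin (K0+1)) => χ i (fun _ => 1) l) (fun _ _ => Finset.mem_univ _)
  have main : ∀ i j, i < j → j ≤ Fintype.card (Fin (K0+1) → F) →
      (fun (l : Fin (K0+1)) => χ i (fun _ => 1) l) = (fun (l : Fin (K0+1)) => χ j (fun _ => 1) l) →
      False := by
    intro i j hij hj heq
    obtain ⟨d, hd, φ, hφ, h3⟩ := h2 i j hij hj
    obtain ⟨t, ht, hne⟩ := hK0 φ hφ
    have h4 := congrFun heq ⟨t, by omega⟩
    simp only at h4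
    have h5 := h3 t
    rw [h4, sub_self] at h5
    exact mul_ne_zero hd hne h5.symm
  rw [Finset.mem_range] at hi hj
  rcases lt_or_gt_of_ne hne with h | h
  · exact main i j h (by omega) heq
  · exact main j i h (by omega) heq.symm

/-- finite determinism is impossible for the constant tower -/
theorem not_det (h2 : (2:F) ≠ 0) (T : ℕ) (hT : 1 ≤ T)
    (hdet : ∀ m m', 1 ≤ m → 1 ≤ m' → (∀ i, i < T → aa F (2^i*m) = aa F (2^i*m')) →
      aa F (2^T*m) = aa F (2^T*m')) : False := by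
  classical
  let W : ℕ → ℕ → (Fin T → F) := fun m i l => aa F (2^(i+l.1)*m)
  have hstep : ∀ m m' i i', 1 ≤ m → 1 ≤ m' → W m i = W m' i' → W m (i+1) = W m' (i'+1) := by
    intro m m' i i' hm hm' h
    funext l
    show aa F (2^(i+1+l.1)*m) = aa F (2^(i'+1+l.1)*m')
    rcases Nat.lt_or_ge (l.1+1) T with hl | hl
    · have := congrFun h ⟨l.1+1, hl⟩
      simp only [W] at this
      rw [show i+1+l.1 = i+(l.1+1) by omega, show i'+1+l.1 = i'+(l.1+1) by omega]
      exact this
    · have hl' : l.1 + 1 = T := by have := l.2; omega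
      have := hdet (2^i*m) (2^i'*m') (Nat.mul_pos (by positivity) hm)
        (Nat.mul_pos (by positivity) hm') (by
        intro t ht
        have := congrFun h ⟨t, ht⟩
        simp only [W] at this
        rw [← mul_assoc, ← mul_assoc, ← pow_add, ← pow_add, Nat.add_comm t i, Nat.add_comm t i']
        exact this)
      rw [← mul_assoc, ← mul_assoc, ← pow_add, ← pow_add] at this
      rw [show i+1+l.1 = T+i by omega, show i'+1+l.1 = T+i' by omega]
      exact this
  let Ψ : (Fin T → F) → (Fin T → F) := fun w =>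
    if h : ∃ m i, 1 ≤ m ∧ W m i = w then W h.choose (h.choose_spec.choose + 1) else w
  have hΨ : ∀ m i, 1 ≤ m → W m (i+1) = Ψ (W m i) := by
    intro m i hm
    have h : ∃ m' i', 1 ≤ m' ∧ W m' i' = W m i := ⟨m, i, hm, rfl⟩
    show _ = if h : ∃ m' i', 1 ≤ m' ∧ W m' i' = W m i then W h.choose (h.choose_spec.choose + 1)
      else W m i
    rw [dif_pos h]
    exact hstep _ _ _ _ hm h.choose_spec.choose_spec.1 h.choose_spec.choose_spec.2.symm
  have hiter : ∀ m i, 1 ≤ m → W m i = Ψ^[i] (W m 0) := by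
    intro m i hm
    induction i with
    | zero => rfl
    | succ i ih => rw [hΨ m i hm, ih, Function.iterate_succ_apply']
  obtain ⟨i, i', hne, heq⟩ := Finite.exists_ne_map_eq_of_infinite (fun i : ℕ => Ψ^[i])
  have hW : ∀ m, aa F (2^i*m) = aa F (2^i'*m) := by
    intro m
    rcases Nat.eq_zero_or_pos m with rfl | hm
    · simp
    · have h1 := hiter m i hm
      have h3 := hiter m i' hm
      have heq' : Ψ^[i] = Ψ^[i'] := heq
      rw [heq', ← h3] at h1
      have h4 := congrFun h1 ⟨0, hT⟩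
      simpa [W] using h4
  rcases lt_or_gt_of_ne hne with h | h
  · exact not_all_eq h2 i i' h hW
  · exact not_all_eq h2 i' i h (fun m => (hW m).symm)

/-- two limits of the constant tower with the same shift but different values at level zero -/
theorem exists_pair (h2 : (2:F) ≠ 0) : ∃ x x' : ℕ → F, Lim1 (fun _ => 1) x ∧
    Lim1 (fun _ => 1) x' ∧ (∀ j, 1 ≤ j → x j = x' j) ∧ x 0 ≠ x' 0 := by
  by_contra hno
  have hbad : ∀ i : ℕ, ∃ m m', 1 ≤ m ∧ 1 ≤ m' ∧
      (∀ t, t < i+1 → aa F (2^t*m) = aa F (2^t*m')) ∧ aa F (2^(i+1)*m) ≠ aa F (2^(i+1)*m') := by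
    intro i
    by_contra hcon
    push Not at hcon
    exact not_det h2 (i+1) (by omega) (fun m m' hm hm' h => hcon m m' hm hm' h)
  choose m m' hm hm' h1 h3 using hbad
  obtain ⟨φ, hφ, φ', hφ', h4⟩ := EE_limit2 (F := F) (fun i => i+1) m m' (fun i => by omega) hm hm'
  apply hno
  refine ⟨φ (fun _ => 1), φ' (fun _ => 1), EE_lim1 hφ _, EE_lim1 hφ' _, ?_, ?_⟩
  · intro j hj
    obtain ⟨i, hi, h5⟩ := h4 {fun _ => 1} j
    obtain ⟨h6, h7⟩ := h5 _ (Finset.mem_singleton_self _) j le_rfl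
    rw [← h6, ← h7, X_one, X_one]
    exact h1 i _ (by omega)
  · obtain ⟨i, hi, h5⟩ := h4 {fun _ => 1} 0
    obtain ⟨h6, h7⟩ := h5 _ (Finset.mem_singleton_self _) 0 le_rfl
    rw [← h6, ← h7, X_one, X_one]
    exact h3 i

theorem zero_of_hom (h2 : (2:F) ≠ 0) (hsurj : ∀ x : F, ∃ n : ℕ, (n:F) = x)
    (hom : Hom (fun _ : ℕ => (1:F))) : Lim1 (fun _ : ℕ => (1:F)) (fun _ => 0) := by
  obtain ⟨x, x', hx, hx', h1, h3⟩ := exists_pair (F := F) h2
  apply zero_of_full
  intro s z hz c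
  refine full_all hsurj hom hx (d := x' 0 - x 0) (sub_ne_zero.mpr (Ne.symm h3)) ?_ hz c
  have : (fun j => x j + dl (x' 0 - x 0) j) = x' := by
    funext j
    rcases Nat.eq_zero_or_pos j with rfl | hj
    · simp [dl]
    · simp only [dl]
      rw [if_neg (by omega), add_zero]
      exact h1 j hj
  rw [this]
  exact hx'

/-- Theorem 1 -/
theorem zero_limit (h2 : (2:F) ≠ 0) (hsurj : ∀ x : F, ∃ n : ℕ, (n:F) = x) :
    Lim1 (fun _ : ℕ => (1:F)) (fun _ => 0) := by
  classical
  by_contra hno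
  letI : TopologicalSpace F := ⊥
  haveI : DiscreteTopology F := ⟨rfl⟩
  have hK0 : ∃ K0, ∀ φ ∈ EE F, ∃ j, j ≤ K0 ∧ φ (fun _ => 1) j ≠ 0 := by
    rw [lim1_iff] at hno
    push Not at hno
    obtain ⟨K, hK⟩ := hno
    refine ⟨K, ?_⟩
    intro φ hφ
    obtain ⟨m, hm, h1⟩ := hφ {fun _ => 1} K
    obtain ⟨j, hj, h3⟩ := hK m hm
    refine ⟨j, hj, ?_⟩
    rw [← h1 _ (Finset.mem_singleton_self _) j hj]
    exact h3
  obtain ⟨K0, hK0⟩ := hK0
  obtain ⟨I, hI, hmin⟩ := exists_minideal (F := F)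
  by_cases hex : ∀ u ∈ I, u ∘ u = u → Exit (kk u)
  · obtain ⟨C, hC⟩ := hI.2.1
    obtain ⟨u, hu, hid, _⟩ := minideal_idem hI hmin hC
    exact no_GG hK0 (fun n => GG_all hI hmin hex n u hu hid)
  · push Not at hex
    obtain ⟨u, hu, hid, hnex⟩ := hex
    unfold Exit at hnex
    push Not at hnex
    obtain ⟨K, m, _, _, h1⟩ := hnex
    obtain ⟨J, hJ⟩ := eventually_zero h1
    apply hno
    apply zero_of_hom h2 hsurj
    -- the shifted point
    have hω : ∀ φ ∈ EE F, φ (fun j => u (fun _ => 1) (J+j)) = φ (fun _ => 1) := by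
      intro φ hφ
      have e1 : (fun _ : ℕ => (1:F)) = fun j => u (fun _ => 1) (J+j) + kk u (J+j) := by
        funext j; simp only [kk]; ring
      conv_rhs => rw [e1]
      rw [EE_add hφ]
      funext t
      have h4 : φ (fun j => kk u (J+j)) t = 0 := by
        apply EE_eq_zero hφ
        intro v hv
        rw [X_shift]
        exact hJ (J+t) (by omega) v hv
      rw [h4, add_zero]
    have hminω : Min1 (fun j => u (fun _ => 1) (J+j)) :=
      (minideal_min hI hmin hu _).shift J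
    intro y z hy hz
    obtain ⟨φ, hφ, rfl⟩ := lim1_iff_EE.mp hy
    obtain ⟨φ', hφ', rfl⟩ := lim1_iff_EE.mp hz
    rw [← hω φ hφ, ← hω φ' hφ']
    exact hminω.hom _ _ (EE_lim1 hφ _) (EE_lim1 hφ' _)

end Main

end Pool.Agent.H251.BP
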