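import Mathlib
import Pool.Agent.H251.BP.Thm1

/-!
# Every tower has a finitely supported limit
-/

namespace Pool.Agent.H251.BP

open Pool.Agent.TH76.BinPart

set_option linter.unusedSectionVars false
set_option linter.style.haveILetI false

section Delta
variable {F : Type*} [Field F] [Finite F]

/-- the constant tower has a nonzero limit supported at level zero -/
theorem exists_delta (h2 : (2:F) ≠ 0) (hsurj : ∀ x : F, ∃ n : ℕ, (n:F) = x) :
    ∃ φ ∈ EE F, ∃ c : F, c ≠ 0 ∧ φ (fun _ => 1) = dl c := by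
  classical
  have h0 := zero_limit h2 hsurj
  rw [lim1_iff] at h0
  choose m hm h1 using h0
  have hz : ∀ K i, i ≤ K → aa F (2^i * m K) = 0 := by
    intro K i hi
    have := h1 K (K-i) (by omega)
    rw [X_one, show K - (K-i) = i by omega] at this
    exact this
  have hne : ∀ K, ∃ i, aa F (2^i * m K) ≠ 0 := fun K => exists_ne_zero h2 (m K)
  have hgt : ∀ K, K < Nat.find (hne K) := by
    intro K
    by_contra hcon
    exact Nat.find_spec (hne K) (hz K _ (by omega))
  obtain ⟨φ, hφ, h3⟩ := EE_limit (F := F) (fun K => Nat.find (hne K)) m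
    (fun K => (hgt K).le) hm
  refine ⟨φ, hφ, φ (fun _ => 1) 0, ?_, ?_⟩
  · obtain ⟨i, hi, h4⟩ := h3 {fun _ => 1} 0
    rw [← h4 _ (Finset.mem_singleton_self _) 0 le_rfl, X_one, Nat.sub_zero]
    exact Nat.find_spec (hne i)
  · funext j
    by_cases hj : j = 0
    · subst hj; simp [dl]
    · simp only [dl, if_neg hj]
      obtain ⟨i, hi, h4⟩ := h3 {fun _ => 1} j
      rw [← h4 _ (Finset.mem_singleton_self _) j le_rfl, X_one]
      have h5 := Nat.find_min (hne i) (m := Nat.find (hne i) - j) (by
        have := hgt i; omega)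
      push Not at h5
      exact h5

end Delta

section Special
variable {F : Type*} [Field F]

/-- a tower that is eventually periodic at some level is eventually zero at some level -/
theorem zero_of_periodic {x : ℕ → F} : ∀ (P : ℕ), 1 ≤ P → ∀ (κ : ℕ),
    (∃ u0, ∀ u, u0 ≤ u → X x κ (u+P) = X x κ u) → ∃ κ' m, ∀ v, m < v → X x κ' v = 0 := by
  intro P
  induction P using Nat.strong_induction_on with
  | _ P ih =>
    intro hP κ hper
    obtain ⟨u0, hu0⟩ := hper
    rcases Nat.even_or_odd P with ⟨P', hP'⟩ | ⟨P', hP'⟩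
    · refine ih P' (by omega) (by omega) (κ+1) ⟨u0+1, ?_⟩
      intro m hm
      have e1 := X_even x κ (m+P') (by omega)
      have e2 := X_even x κ m (by omega)
      have e3 := hu0 (2*m) (by omega)
      have e4 := hu0 (2*m-1) (by omega)
      rw [show 2*m + P = 2*(m+P') by omega] at e3
      rw [show 2*m-1 + P = 2*(m+P')-1 by omega] at e4
      rw [e3, e4, e2] at e1
      have := add_left_cancel e1
      exact this.symm
    · have key : ∀ m, u0 + 1 ≤ m → X x (κ+1) (m+1) = X x (κ+1) m := by
        intro m hm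
        have a1 := X_succ x κ (2*m+1)
        have a2 := X_succ x κ (2*m)
        have a3 := X_succ x κ (2*m+1+P)
        have a4 := X_succ x κ (2*m+P)
        have b1 := hu0 (2*m+1) (by omega)
        have b2 := hu0 (2*m+2) (by omega)
        have b3 := hu0 (2*m) (by omega)
        rw [show (2*m+1+1)/2 = m+1 by omega] at a1
        rw [show (2*m+1)/2 = m by omega] at a2
        rw [show 2*m+1+P+1 = 2*m+2+P by omega, b2, b1] at a3
        rw [show 2*m+P+1 = 2*m+1+P by omega, b1, b3] at a4
        rw [show (2*m+2+P)/2 = (2*m+1+P)/2 by omega] at a3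
        rw [show 2*m+1+1 = 2*m+2 by omega] at a1
        have c1 : X x (κ+1) (m+1) = X x κ (2*m+2) - X x κ (2*m+1) := by rw [a1]; ring
        have c2 : X x (κ+1) m = X x κ (2*m+1) - X x κ (2*m) := by rw [a2]; ring
        have c3 : X x (κ+1) ((2*m+1+P)/2) = X x κ (2*m+2) - X x κ (2*m+1) := by
          linear_combination (-1:F)*a3
        have c4 : X x (κ+1) ((2*m+1+P)/2) = X x κ (2*m+1) - X x κ (2*m) := by
          linear_combination (-1:F)*a4
        rw [c1, c2, ← c3, ← c4]
      refine ⟨κ+1+1, u0+1, ?_⟩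
      intro v hv
      have h1 := X_even x (κ+1) v (by omega)
      have h2 := key (2*v-1) (by omega)
      rw [show 2*v-1+1 = 2*v by omega, h1] at h2
      linear_combination h2

variable [Finite F]

theorem special_pair (x : ℕ → F) (hx : ∀ z, Lim1 x z → ¬ ∃ D, ∀ j, D ≤ j → z j = 0) :
    ∃ (y : ℕ → F) (δ : F), δ ≠ 0 ∧ Lim1 x y ∧ Lim1 x (fun j => y j + δ) := by
  classical
  by_contra hno
  have hK : ∃ K, ∀ m m', 1 ≤ m → 1 ≤ m' → ∀ δ : F, δ ≠ 0 →
      ¬ (∀ j, j ≤ K → X x j (2^(K-j)*m') = X x j (2^(K-j)*m) + δ) := by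
    by_contra hcon
    push Not at hcon
    choose m m' hm hm' δ hδ h1 using hcon
    obtain ⟨φ, hφ, φ', hφ', h2⟩ := EE_limit2 (F := F) (fun i => i) m m' (fun _ => le_rfl) hm hm'
    apply hno
    refine ⟨φ x, φ' x 0 - φ x 0, ?_, EE_lim1 hφ x, ?_⟩
    · obtain ⟨i, hi, h3⟩ := h2 {x} 0
      obtain ⟨h4, h5⟩ := h3 x (Finset.mem_singleton_self x) 0 le_rfl
      rw [← h4, ← h5, h1 i 0 (Nat.zero_le _), add_sub_cancel_left]
      exact hδ i
    · have : (fun j => φ x j + (φ' x 0 - φ x 0)) = φ' x := by
        funext j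
        obtain ⟨i, hi, h3⟩ := h2 {x} j
        obtain ⟨h4, h5⟩ := h3 x (Finset.mem_singleton_self x) 0 (Nat.zero_le _)
        obtain ⟨h6, h7⟩ := h3 x (Finset.mem_singleton_self x) j le_rfl
        rw [← h4, ← h5, ← h6, ← h7, h1 i 0 (Nat.zero_le _), h1 i j hi]
        ring
      rw [this]
      exact EE_lim1 hφ' x
  obtain ⟨K, hK⟩ := hK
  let S : ℕ → (Fin (K+1) → F) := fun u l => X x l.1 (2^(K-l.1)*(u+1))
  have hstep : ∀ u u', S u = S u' → S (u+1) = S (u'+1) := by
    intro u u' hS
    have hS' : ∀ j, j ≤ K → X x j (2^(K-j)*(u+1)) = X x j (2^(K-j)*(u'+1)) := by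
      intro j hj
      exact congrFun hS ⟨j, by omega⟩
    have hconst : ∀ t j, j + t = K →
        X x j (2^(K-j)*(u'+1+1)) = X x j (2^(K-j)*(u+1+1)) +
          (X x K (u'+1+1) - X x K (u+1+1)) := by
      intro t
      induction t with
      | zero =>
        intro j hj
        have : j = K := by omega
        subst this
        simp
      | succ t ih =>
        intro j hj
        have ih' := ih (j+1) (by omega)
        obtain ⟨q, hq⟩ : ∃ q, K - j = q + 1 := ⟨K-j-1, by omega⟩
        have hq' : K - (j+1) = q := by omega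
        rw [hq'] at ih'
        rw [hq]
        have e1 : ∀ w, 2^(q+1)*w = 2*(2^q*w) := by intro w; ring
        have hpos : ∀ w, 1 ≤ w → 1 ≤ 2^q*w := by
          intro w hw; exact Nat.mul_pos (by positivity) hw
        have e2 := X_even x j (2^q*(u+1+1)) (hpos _ (by omega))
        have e3 := X_even x j (2^q*(u'+1+1)) (hpos _ (by omega))
        rw [e1, e1, e2, e3, ih']
        have hb : X x j (2*(2^q*(u+1+1))-1) = X x j (2*(2^q*(u'+1+1))-1) := by
          have b1 := X_block x (fun i' => X x (j+i') (2^(K-j-i')*(u+1))) j (K-j) (u+1)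
            (fun i' _ => rfl) (2^(K-j)-1) 0 (Nat.zero_le _) (by
              have : 0 < 2^(K-j) := by positivity
              rw [Nat.sub_zero]; omega)
          have b2 := X_block x (fun i' => X x (j+i') (2^(K-j-i')*(u+1))) j (K-j) (u'+1)
            (fun i' hi' => by
              have := hS' (j+i') (by omega)
              rw [show K - j - i' = K - (j+i') by omega]
              exact this.symm) (2^(K-j)-1) 0 (Nat.zero_le _) (by
              have : 0 < 2^(K-j) := by positivity
              rw [Nat.sub_zero]; omega)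
          rw [← b2] at b1
          simp only [Nat.sub_zero, Nat.add_zero] at b1
          rw [hq] at b1
          have p1 : ∀ w, 2^(q+1)*w + (2^(q+1)-1) = 2*(2^q*(w+1)) - 1 := by
            intro w
            have : 0 < 2^q := by positivity
            have h2 : 2^(q+1) = 2*2^q := by ring
            rw [h2]
            have h3 : 2*(2^q*(w+1)) = 2*2^q*w + 2*2^q := by ring
            omega
          rw [p1, p1] at b1
          exact b1
        rw [hb]
        ring
    have hzero : X x K (u'+1+1) - X x K (u+1+1) = 0 := by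
      by_contra hne
      refine hK (u+1+1) (u'+1+1) (by omega) (by omega) _ hne ?_
      intro j hj
      exact hconst (K-j) j (by omega)
    funext l
    have := hconst (K - l.1) l.1 (by have := l.2; omega)
    rw [hzero, add_zero] at this
    exact this.symm
  obtain ⟨u, u', hne, hu⟩ := Finite.exists_ne_map_eq_of_infinite S
  have main : ∀ u u', u < u' → S u = S u' → False := by
    intro u u' hlt hS
    have hall : ∀ t, S (u+t) = S (u'+t) := by
      intro t
      induction t with
      | zero => exact hS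
      | succ t ih => exact hstep _ _ ih
    obtain ⟨κ', m, hm⟩ := zero_of_periodic (x := x) (u'-u) (by omega) K ⟨u+1, by
      intro w hw
      obtain ⟨t, rfl⟩ : ∃ t, w = u + t + 1 := ⟨w - u - 1, by omega⟩
      have := congrFun (hall t) ⟨K, by omega⟩
      simp only [S, Nat.sub_self, pow_zero, one_mul] at this
      rw [this]
      congr 1
      omega⟩
    obtain ⟨J, hJ⟩ := eventually_zero hm
    obtain ⟨φ, hφ⟩ := EE_nonempty (F := F)
    exact hx (φ x) (EE_lim1 hφ x) ⟨J, fun j hj => EE_eq_zero hφ x j (hJ j hj)⟩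
  rcases lt_or_gt_of_ne hne with h | h
  · exact main u u' h hu
  · exact main u' u h hu.symm

end Special

section Main
variable {F : Type*} [Field F] [Finite F]

/-- Theorem 2: every tower has a finitely supported limit -/
theorem exists_finite (h2 : (2:F) ≠ 0) (hsurj : ∀ x : F, ∃ n : ℕ, (n:F) = x) (r : ℕ → F) :
    ∃ y, Lim1 r y ∧ ∃ D, ∀ j, D ≤ j → y j = 0 := by
  by_contra hno
  obtain ⟨ρ, hρ, hmin⟩ := exists_min1 r
  have hnf : ∀ s z, Lim1 (fun j => ρ (s+j)) z → ¬ ∃ D, ∀ j, D ≤ j → z j = 0 := by
    rintro s z hz ⟨D, hD⟩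
    obtain ⟨z', hz', rfl⟩ := lim1_lift s hz
    apply hno
    refine ⟨z', lim1_trans hρ hz', s + D, ?_⟩
    intro j hj
    obtain ⟨t, rfl⟩ : ∃ t, j = s + t := ⟨j - s, by omega⟩
    exact hD t (by omega)
  obtain ⟨φ, hφ, c, hc, hφc⟩ := exists_delta (F := F) h2 hsurj
  have hz : Lim1 ρ (fun _ => 0) := by
    apply zero_of_full
    intro s z hz c'
    obtain ⟨y, δ, hδ, hy, hy'⟩ := special_pair _ (hnf s)
    have e1 : φ (fun j => y j + δ) = fun j => φ y j + dl (δ*c) j := by
      have e2 : (fun j => y j + δ) = fun j => y j + δ * (fun _ : ℕ => (1:F)) j := by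
        funext j; simp
      rw [e2, EE_axpy hφ, hφc]
      funext j
      simp only [dl]
      split_ifs <;> simp
    refine full_all hsurj (hmin.shift s).hom (lim1_trans hy (EE_lim1 hφ y))
      (mul_ne_zero hδ hc) ?_ hz c'
    rw [← e1]
    exact lim1_trans hy' (EE_lim1 hφ _)
  exact hno ⟨_, lim1_trans hρ hz, 0, fun _ _ => rfl⟩

end Main

end Pool.Agent.H251.BP
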