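import Mathlib
import Pool.Agent.H251.BP.Thm2
import Pool.Agent.TH76.BinPart.B2

/-!
# Composite moduli
-/

namespace Pool.Agent.H251.BP

open Pool.Agent.TH76.BinPart

set_option linter.unusedSectionVars false

/-- positions whose first `K` doublings all have binary partition numbers divisible by `h` -/
def Zer (h : ℕ) : Prop := ∀ K, ∃ m, 1 ≤ m ∧ ∀ i, i ≤ K → h ∣ an (2^i*m)

theorem zer_one : Zer 1 := fun _ => ⟨1, le_rfl, fun _ _ => one_dvd _⟩

theorem an_step {K j m n : ℕ} (hn : n + 1 < 2^(K-j)) (hj : j ≤ K) :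
    an (2^(K-j)*m + (n+1)) = an (2^(K-j)*m + n) + an (2^(K-(j+1))*m + (n+1)/2) ∧
      (n+1)/2 < 2^(K-(j+1)) ∧ j + 1 ≤ K := by
  have hJ : 1 ≤ K - j := by
    by_contra hcon
    have : K - j = 0 := by omega
    rw [this] at hn
    simp at hn
  obtain ⟨q, hq⟩ : ∃ q, K - j = q + 1 := ⟨K-j-1, by omega⟩
  have hq' : K - (j+1) = q := by omega
  rw [hq] at hn ⊢
  rw [hq']
  have e1 : 2^(q+1)*m + (n+1) = (2^(q+1)*m + n) + 1 := by ring
  have hpow : 2^(q+1) = 2 * 2^q := by ring
  have e2 : (2^(q+1)*m + n + 1)/2 = 2^q*m + (n+1)/2 := by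
    rw [hpow, mul_assoc]; omega
  refine ⟨?_, by omega, by omega⟩
  rw [e1, an_succ, e2]

theorem block_dvd {h K m : ℕ} (hz : ∀ i, i ≤ K → h ∣ an (2^i*m)) :
    ∀ n j, j ≤ K → n < 2^(K-j) → h ∣ an (2^(K-j)*m + n) := by
  intro n
  induction n using Nat.strong_induction_on with
  | _ n ih =>
    intro j hj hn
    cases n with
    | zero => exact hz _ (by omega)
    | succ n =>
      obtain ⟨h1, h2, h3⟩ := an_step (m := m) hn hj
      rw [h1]
      exact dvd_add (ih n (by omega) j hj (by omega)) (ih _ (by omega) (j+1) h3 h2)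

section Quot
variable {F : Type*} [Field F]

/-- the quotient tower -/
noncomputable def qt (F : Type*) [Field F] (h K m : ℕ) : ℕ → F := fun j => ((an (2^(K-j)*m) / h : ℕ) : F)

theorem block_quot {h K m : ℕ} (hz : ∀ i, i ≤ K → h ∣ an (2^i*m)) :
    ∀ n j, j ≤ K → n < 2^(K-j) →
      ((an (2^(K-j)*m + n) / h : ℕ) : F) = X (qt F h K m) j n := by
  intro n
  induction n using Nat.strong_induction_on with
  | _ n ih =>
    intro j hj hn
    cases n with
    | zero => rw [X_zero, Nat.add_zero]; rfl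
    | succ n =>
      obtain ⟨h1, h2, h3⟩ := an_step (m := m) hn hj
      rw [h1, X_succ, ← ih n (by omega) j hj (by omega), ← ih _ (by omega) (j+1) h3 h2,
        Nat.add_div_of_dvd_right (block_dvd hz n j hj (by omega))]
      push_cast
      rfl

end Quot

theorem zer_step {h p : ℕ} (hp : p.Prime) (hp2 : p ≠ 2) (hz : Zer h) : Zer (h*p) := by
  classical
  have : Fact p.Prime := ⟨hp⟩
  have : NeZero p := ⟨hp.ne_zero⟩
  have h2 : (2:ZMod p) ≠ 0 := by
    intro h
    have : ((2:ℕ):ZMod p) = 0 := by exact_mod_cast h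
    rw [ZMod.natCast_eq_zero_iff] at this
    exact hp2 ((Nat.prime_dvd_prime_iff_eq hp Nat.prime_two).mp this)
  have hsurj : ∀ x : ZMod p, ∃ n : ℕ, (n:ZMod p) = x := fun x => ⟨x.val, ZMod.natCast_zmod_val x⟩
  choose m hm h1 using hz
  -- a cluster point of the quotient towers
  choose x hx using fun j : ℕ =>
    ultra_const (Filter.hyperfilter ℕ) (fun i => qt (ZMod p) h i (m i) j)
  have hcl : ∀ L, ∃ i, L ≤ i ∧ ∀ j, j ≤ L → qt (ZMod p) h i (m i) j = x j := by
    intro L
    have e1 : ∀ᶠ i in (Filter.hyperfilter ℕ : Filter ℕ), L ≤ i :=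
      (Nat.hyperfilter_le_atTop) (Filter.eventually_ge_atTop L)
    have e2 : ∀ᶠ i in (Filter.hyperfilter ℕ : Filter ℕ), ∀ j ∈ Finset.range (L+1),
        qt (ZMod p) h i (m i) j = x j := by
      rw [Filter.eventually_all_finset]
      intro j _
      exact hx j
    obtain ⟨i, hi, hi'⟩ := (e1.and e2).exists
    exact ⟨i, hi, fun j hj => hi' j (Finset.mem_range.mpr (by omega))⟩
  obtain ⟨y, hy, D, hD⟩ := exists_finite h2 hsurj x
  rw [lim1_iff] at hy
  intro K'
  obtain ⟨m', hm', h3⟩ := hy (K'+D)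
  obtain ⟨i, hi, h4⟩ := hcl ((K'+D) + 2^(K'+D)*m' + 1)
  refine ⟨2^(i-(K'+D)) * m i + m', by omega, ?_⟩
  intro t ht
  have hNt : 2^t*m' ≤ 2^(K'+D)*m' :=
    Nat.mul_le_mul_right _ (Nat.pow_le_pow_right (by norm_num) (by omega))
  set j := K' + D - t with hj
  have hjt : K' + D - j = t := by omega
  have hpos : 2^t*(2^(i-(K'+D)) * m i + m') = 2^(i-j) * m i + 2^t*m' := by
    rw [mul_add, ← mul_assoc, ← pow_add]
    congr 3; omega
  have hlt : 2^t*m' < 2^(i-j) := by
    have e1 : 2^t*m' < i - j := by omega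
    exact lt_trans e1 Nat.lt_two_pow_self
  have hdvd := block_dvd (h1 i) (2^t*m') j (by omega) hlt
  have hquot := block_quot (F := ZMod p) (h1 i) (2^t*m') j (by omega) hlt
  have hX : X (qt (ZMod p) h i (m i)) j (2^t*m') = X x j (2^t*m') := by
    apply X_congr
    intro l _ hl2
    exact h4 l (by omega)
  have h5 := h3 j (by omega)
  rw [hjt] at h5
  rw [hX, h5, hD j (by omega), ZMod.natCast_eq_zero_iff] at hquot
  rw [hpos]
  exact Nat.mul_dvd_of_dvd_div hdvd hquot

theorem zer_odd (h : ℕ) : Odd h → Zer h := by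
  induction h using induction_on_primes with
  | zero => intro h; exact absurd h (by decide)
  | one => intro _; exact zer_one
  | prime_mul p a hp ih =>
    intro h
    rw [Nat.odd_mul] at h
    rw [Nat.mul_comm]
    refine zer_step hp ?_ (ih h.2)
    rintro rfl
    exact absurd h.1 (by decide)

/-- every odd number, times four, divides arbitrarily late values -/
theorem exists_dvd {o : ℕ} (ho : Odd o) (N : ℕ) : ∃ n, N ≤ n ∧ 4 * o ∣ an n := by
  obtain ⟨m, hm, h1⟩ := zer_odd o ho (N+2)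
  have hpow : 4 * 2^N = 2^(N+2) := by rw [pow_add]; ring
  have hN : N < 2^N := Nat.lt_two_pow_self
  refine ⟨2^(N+2)*m + 2, ?_, ?_⟩
  · have : 2^(N+2) ≤ 2^(N+2)*m := Nat.le_mul_of_pos_right _ (by omega)
    omega
  · have h2 := block_dvd h1 2 0 (Nat.zero_le _) (by rw [Nat.sub_zero]; omega)
    rw [Nat.sub_zero] at h2
    have h3 : 4 ∣ an (2^(N+2)*m+2) := by
      apply four_dvd
      rw [← hpow, mul_assoc]; omega
    have hcop : Nat.Coprime 4 o := by
      have : Nat.Coprime (2^2) o := Nat.Coprime.pow_left 2 (Nat.coprime_two_left.mpr ho)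
      simpa using this
    exact Nat.Coprime.mul_dvd_of_dvd_of_dvd hcop h3 h2

end Pool.Agent.H251.BP
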